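import Pool.Agent.Helper76.PB.GoalsF
import Pool.Agent.Helper99.RS.QEX
import Pool.Agent.Helper90.RP.DUAL
import Pool.Agent.Helper2.RL.EF1

/-!
# Project B, packet PB-XKLB: Kummer extensions, lower bound
-/

set_option autoImplicit false

namespace Pool.Agent.Helper81.PB

open NumberField Polynomial Module IsDedekindDomain
open Pool.Agent.Helper51.RP
open Pool.Agent.Helper76.PB
open Pool.Agent.Helper38.RS (pz)
open Pool.Agent.Helper40.RS (bel efg lies)
open Pool.Agent.Helper40.RD (valW ordW bel_of_above)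
open Pool.Agent.Helper2.RL (ef_free residue_surj)
open Pool.Agent.Helper90.RP.Dual (ordv_eq_zero_iff finite_ordv)
open Pool.Agent.Helper99.RS (pz_mono)

theorem locPow_of_free (p : ℕ) (hp : p ≠ 0) {F E : Type} [Field F] [NumberField F] [Field E]
    [NumberField E] [Algebra F E] [IsGalois F E] (v : HeightOneSpectrum (𝓞 F))
    (W : HeightOneSpectrum (𝓞 E)) (hW : Above W v) (hf : FreeP F W) (b : F) (r : E)
    (hr : r ^ p = algebraMap F E b) (hb : b ≠ 0) (ho : ordv v b = 0) : LocPow p v b := by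
  obtain rfl := bel_of_above hW
  have hef := ef_free W hf
  have hf1 : W.asIdeal.inertiaDeg (𝓞 F) = 1 := Nat.eq_one_of_mul_eq_one_left hef
  have hb1 : (bel F W).valuation F b = 1 := (ordv_eq_zero_iff _ hb).1 ho
  have hbW : W.valuation E (algebraMap F E b) = 1 := by rw [valW, hb1, one_pow]
  have hrW : W.valuation E r = 1 := by
    have h1 : W.valuation E r ^ p = 1 := by rw [← map_pow, hr, hbW]
    exact (pow_eq_one_iff.1 h1).resolve_right hp
  have hriW : W.valuation E r⁻¹ = 1 := by rw [map_inv₀, hrW, inv_one]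
  have hr0 : r ≠ 0 := by
    rintro rfl
    rw [map_zero] at hrW
    exact zero_ne_one hrW
  obtain ⟨y, hy⟩ := HeightOneSpectrum.exists_valuation_sub_lt_of_integer W hriW.le 1
  rw [Units.val_one] at hy
  obtain ⟨x, hx⟩ := residue_surj W hf1 y
  have hx' := (HeightOneSpectrum.valuation_lt_one_iff_mem (K := E) W _).2 hx
  set c : E := algebraMap F E (x : F) with hc
  have hcr : W.valuation E (c - r⁻¹) < 1 := by
    have e : c - r⁻¹ = (algebraMap (𝓞 E) E y - r⁻¹) -
        algebraMap (𝓞 E) E (y - algebraMap (𝓞 F) (𝓞 E) x) := by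
      rw [map_sub]
      have : algebraMap (𝓞 E) E (algebraMap (𝓞 F) (𝓞 E) x) = c := rfl
      rw [this]
      ring
    rw [e]
    exact (Valuation.map_sub _ _ _).trans_lt (max_lt hy hx')
  have vc : W.valuation E c ≤ 1 := by
    have : c = algebraMap (𝓞 E) E (algebraMap (𝓞 F) (𝓞 E) x) := rfl
    rw [this]
    exact W.valuation_le_one _
  have hpow : W.valuation E (c ^ p - r⁻¹ ^ p) < 1 := by
    rw [← (Commute.all c r⁻¹).mul_geom_sum₂ p, map_mul]
    refine mul_lt_one_of_lt_of_le hcr ?_
    refine Valuation.map_sum_le _ fun i _ => ?_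
    rw [map_mul, map_pow, map_pow, hriW, one_pow, mul_one]
    exact pow_le_one₀ zero_le vc
  refine ⟨(x : F), ?_⟩
  have h2 : W.valuation E (algebraMap F E (b * (x : F) ^ p - 1)) < 1 := by
    have e : algebraMap F E (b * (x : F) ^ p - 1) = r ^ p * (c ^ p - r⁻¹ ^ p) := by
      rw [map_sub, map_mul, map_pow, map_one, ← hr, mul_sub, ← mul_pow r r⁻¹,
        mul_inv_cancel₀ hr0, one_pow]
    rw [e, map_mul, map_pow, hrW, one_pow, one_mul]
    exact hpow
  rw [valW] at h2
  by_contra hcon
  rw [not_lt] at hcon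
  exact absurd h2 (not_lt.2 (one_le_pow₀ hcon))

/-- unramified outside the divisors of the different -/
theorem ord_eq_of_diff {F E : Type} [Field F] [NumberField F] [Field E]
    [NumberField E] [Algebra F E] (W : HeightOneSpectrum (𝓞 E))
    (hD : ¬ W.asIdeal ∣ differentIdeal (𝓞 F) (𝓞 E)) (x : F) :
    ordv W (algebraMap F E x) = ordv (bel F W) x := by
  have h1 : (bel F W).asIdeal.ramificationIdx' W.asIdeal ≠ 0 :=
    Ideal.IsDedekindDomain.ramificationIdx'_ne_zero_of_liesOver W.asIdeal (bel F W).ne_bot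
  have h2 : ¬ 2 ≤ (bel F W).asIdeal.ramificationIdx' W.asIdeal := by
    intro h
    have h3 : (bel F W).asIdeal.map (algebraMap (𝓞 F) (𝓞 E)) ≤ W.asIdeal ^ 2 :=
      Ideal.le_pow_of_le_ramificationIdx' h
    have hm : (bel F W).asIdeal.IsMaximal := (bel F W).isMaximal
    have hfd : FiniteDimensional F E := Module.Finite.of_restrictScalars_finite ℚ F E
    have h4 := pow_sub_one_dvd_differentIdeal (A := 𝓞 F) (B := 𝓞 E) W.asIdeal 2 (bel F W).ne_bot
      (Ideal.dvd_iff_le.2 h3)
    apply hD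
    simpa using h4
  rw [ordW, show (bel F W).asIdeal.ramificationIdx' W.asIdeal = 1 by omega]
  simp

theorem diff_finite (F E : Type) [Field F] [NumberField F] [Field E] [NumberField E]
    [Algebra F E] : {v : HeightOneSpectrum (𝓞 F) | ∃ W : HeightOneSpectrum (𝓞 E),
      Above W v ∧ W.asIdeal ∣ differentIdeal (𝓞 F) (𝓞 E)}.Finite := by
  have hfd : FiniteDimensional F E := Module.Finite.of_restrictScalars_finite ℚ F E
  have hD : differentIdeal (𝓞 F) (𝓞 E) ≠ ⊥ := differentIdeal_ne_bot
  have h1 : {V : HeightOneSpectrum (𝓞 E) | V.asIdeal ∣ differentIdeal (𝓞 F) (𝓞 E)}.Finite :=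
    Ideal.finite_factors hD
  refine (h1.biUnion (t := fun V => {v : HeightOneSpectrum (𝓞 F) | Above V v}) ?_).subset ?_
  · intro V _
    refine Set.Subsingleton.finite ?_
    intro v hv v' hv'
    exact (bel_of_above hv).symm.trans (bel_of_above hv')
  · rintro v ⟨V, hV, hV2⟩
    exact Set.mem_biUnion (x := V) hV2 hV

/-- the Kummer extension -/
theorem exists_kum (p : ℕ) (hp : p.Prime) (F : Type) [Field F] [NumberField F] (ε b : F)
    (hε : IsPrimitiveRoot ε p) (hb : ¬ ∃ z : F, z ^ p = b) :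
    ∃ (E : Type) (_ : Field E) (_ : NumberField E) (_ : Algebra F E) (r : E),
      IsGalois F E ∧ finrank F E = p ∧ r ^ p = algebraMap F E b := by
  have hirr : Irreducible (X ^ p - C b : F[X]) :=
    X_pow_sub_C_irreducible_of_prime hp (fun z hz => hb ⟨z, hz⟩)
  have hζ : (primitiveRoots p F).Nonempty := ⟨ε, (mem_primitiveRoots hp.pos).2 hε⟩
  have hfact : Fact (Irreducible (X ^ p - C b : F[X])) := ⟨hirr⟩
  let E := AdjoinRoot (X ^ p - C b : F[X])
  have hne : (X ^ p - C b : F[X]) ≠ 0 := hirr.ne_zero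
  have hsp : IsSplittingField F E (X ^ p - C b) := isSplittingField_AdjoinRoot_X_pow_sub_C hζ hirr
  have hgal : IsGalois F E := isGalois_of_isSplittingField_X_pow_sub_C hζ hirr E
  have hfin : finrank F E = p := by
    have h := (AdjoinRoot.powerBasis hne).finrank
    rw [AdjoinRoot.powerBasis_dim, natDegree_X_pow_sub_C] at h
    exact h
  have hFE : FiniteDimensional F E := (AdjoinRoot.powerBasis hne).finite
  have hc : CharZero E := charZero_of_injective_algebraMap (algebraMap F E).injective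
  have hQ : FiniteDimensional ℚ E := FiniteDimensional.trans ℚ F E
  have hN : NumberField E := { to_charZero := hc, to_finiteDimensional := hQ }
  refine ⟨E, inferInstance, hN, inferInstance, AdjoinRoot.root _, hgal, hfin, ?_⟩
  have h := AdjoinRoot.eval₂_root (X ^ p - C b : F[X])
  rw [eval₂_sub, eval₂_pow, eval₂_X, eval₂_C, sub_eq_zero] at h
  exact h

theorem x_klb (h1 : X_SPD) : X_KLB := by
  constructor
  · intro p hp F E _ _ _ _ _ _ v W hW hf _ b r hr hb ho
    exact locPow_of_free p hp.out.ne_zero v W hW hf b r hr hb ho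
  · intro p hp F _ _ ε b hε hb hnp
    obtain ⟨E, _, _, _, r, hgal, hfin, hr⟩ := exists_kum p hp.out F ε b hε hnp
    have hp0 : (p : F) ≠ 0 := by exact_mod_cast hp.out.ne_zero
    set Z : Set (HeightOneSpectrum (𝓞 F)) := {v | ordv v (p : F) ≠ 0} ∪ {v | ordv v b ≠ 0} ∪
      {v | ∃ W : HeightOneSpectrum (𝓞 E), Above W v ∧
        W.asIdeal ∣ differentIdeal (𝓞 F) (𝓞 E)} with hZ
    have hZf : Z.Finite :=
      ((finite_ordv _ hp0).union (finite_ordv _ hb)).union (diff_finite F E)
    have hunr : UnrZ F E Z := by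
      intro v hv W hW x
      have h2 : ¬ W.asIdeal ∣ differentIdeal (𝓞 F) (𝓞 E) := fun h => hv (Or.inr ⟨W, hW, h⟩)
      rw [ord_eq_of_diff W h2 x, bel_of_above hW]
    obtain ⟨C, hC⟩ := h1 F E Z hZf hunr
    refine ⟨C, fun s hs hs2 => ?_⟩
    have h3 := hC s hs hs2
    rw [hfin] at h3
    refine h3.trans (pz_mono ?_ s hs)
    rintro v ⟨hv, W, hW, hfree⟩
    have hv1 : ordv v (p : F) = 0 := by
      by_contra h
      exact hv (Or.inl (Or.inl h))
    have hv2 : ordv v b = 0 := by
      by_contra h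
      exact hv (Or.inl (Or.inr h))
    exact ⟨(ordv_eq_zero_iff v hp0).1 hv1,
      locPow_of_free p hp.out.ne_zero v W hW hfree b r hr hb hv2⟩

end Pool.Agent.Helper81.PB
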